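import Mathlib

/-! Tree orders of an ultrametric. -/

namespace Pool.Agent.P.MP_0a2852_co.Full

open Finset

/-- Tree orders of an ultrametric.  Induct on `m`: take a pair `(a,b)` with maximal `t a b`, erase
`b` (then `t b c = t a c` for the other `c`); new values `3 h + 1`, for `b` the value
`3 h(a) + 1` except at `e = t a b`, where it is `3 h(a) + 0` or `3 h(a) + 2` (new bit). -/
theorem count {ι : Type} (t : ι → ι → ℕ) (hs : ∀ a b, t a b = t b a) (m : ℕ) :
    ∀ X : Finset ι, X.card = m + 1 →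
      (∀ a ∈ X, ∀ b ∈ X, ∀ c ∈ X, a ≠ b → b ≠ c → a ≠ c → min (t a b) (t b c) ≤ t a c) →
      ∃ H : (Fin m → Bool) → ℕ → ι → ℕ, (∀ σ e a, H σ e a < 3 ^ (m + 1)) ∧
        (∀ σ, ∀ a ∈ X, ∀ b ∈ X, a ≠ b →
          (∀ e < t a b, H σ e a = H σ e b) ∧ H σ (t a b) a ≠ H σ (t a b) b) ∧
        ∀ σ σ', σ ≠ σ' → ∃ a ∈ X, ∃ b ∈ X, a ≠ b ∧
          H σ (t a b) a < H σ (t a b) b ∧ H σ' (t a b) b < H σ' (t a b) a := by
  classical
  induction m with
  | zero =>
    intro X hX _
    refine ⟨fun _ _ _ => 0, fun _ _ _ => by norm_num, fun _ a ha b hb hab => ?_,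
      fun σ σ' h => absurd (Subsingleton.elim σ σ') h⟩
    exact absurd (card_le_one.1 hX.le a ha b hb) hab
  | succ m ih =>
    intro X hX hu
    have hne : X.offDiag.Nonempty := by
      obtain ⟨a, ha, b, hb, hab⟩ := one_lt_card.1 (show 1 < X.card by omega)
      exact ⟨(a, b), mem_offDiag.2 ⟨ha, hb, hab⟩⟩
    obtain ⟨⟨a, b⟩, hp, hmax⟩ := exists_max_image X.offDiag (fun p => t p.1 p.2) hne
    obtain ⟨ha, hb, hab⟩ := mem_offDiag.1 hp
    simp only at ha hb hab hmax
    have hm : ∀ c ∈ X, ∀ d ∈ X, c ≠ d → t c d ≤ t a b := fun c hc d hd h =>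
      hmax (c, d) (mem_offDiag.2 ⟨hc, hd, h⟩)
    have hbc : ∀ c ∈ X, c ≠ a → c ≠ b → t b c = t a c := fun c hc h1 h2 => by
      have e1 := hu a ha b hb c hc hab h2.symm h1.symm
      have e2 := hu b hb a ha c hc hab.symm h1.symm h2.symm
      have e3 := hm b hb c hc h2.symm
      have e4 := hm a ha c hc h1.symm
      rw [hs b a] at e2
      omega
    have hmem : ∀ c ∈ X, c ≠ b → c ∈ X.erase b := fun c hc h => mem_erase.2 ⟨h, hc⟩
    obtain ⟨H, H1, H2, H3⟩ := ih (X.erase b) (by rw [card_erase_of_mem hb]; omega)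
      fun x hx y hy z hz => hu x (mem_of_mem_erase hx) y (mem_of_mem_erase hy) z
        (mem_of_mem_erase hz)
    let G : (Fin (m + 1) → Bool) → ℕ → ι → ℕ := fun σ e x =>
      if x = b then 3 * H (Fin.tail σ) e a + (if e = t a b then (if σ 0 then 2 else 0) else 1)
      else 3 * H (Fin.tail σ) e x + 1
    have Gn : ∀ σ e x, x ≠ b → G σ e x = 3 * H (Fin.tail σ) e x + 1 := fun σ e x h => if_neg h
    have Gb : ∀ σ e, G σ e b =
        3 * H (Fin.tail σ) e a + (if e = t a b then (if σ 0 then 2 else 0) else 1) :=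
      fun σ e => if_pos rfl
    have key : ∀ σ, ∀ c ∈ X, c ≠ b →
        (∀ e < t b c, G σ e b = G σ e c) ∧ G σ (t b c) b ≠ G σ (t b c) c := by
      intro σ c hc h
      by_cases h1 : c = a
      · subst h1
        rw [hs b c]
        refine ⟨fun e he => ?_, ?_⟩
        · rw [Gb, Gn _ _ _ h, if_neg he.ne]
        · rw [Gb, Gn _ _ _ h, if_pos rfl]
          split_ifs <;> omega
      · obtain ⟨k1, k2⟩ := H2 (Fin.tail σ) a (hmem a ha hab) c (hmem c hc h) (Ne.symm h1)
        have e4 := hm a ha c hc (Ne.symm h1)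
        rw [hbc c hc h1 h]
        refine ⟨fun e he => ?_, ?_⟩
        · rw [Gb, Gn _ _ _ h, if_neg (by omega), k1 e he]
        · rw [Gb, Gn _ _ _ h]
          split_ifs <;> omega
    refine ⟨G, fun σ e x => ?_, fun σ x hx y hy hxy => ?_, fun σ σ' hσ => ?_⟩
    · have h1 := H1 (Fin.tail σ) e a
      have h2 := H1 (Fin.tail σ) e x
      rw [pow_succ 3 (m + 1)]
      by_cases h : x = b
      · rw [h, Gb]
        split_ifs <;> omega
      · rw [Gn _ _ _ h]
        omega
    · by_cases h1 : x = b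
      · subst h1
        exact key σ y hy hxy.symm
      by_cases h2 : y = b
      · subst h2
        obtain ⟨k1, k2⟩ := key σ x hx hxy
        rw [hs x y]
        exact ⟨fun e he => (k1 e he).symm, k2.symm⟩
      obtain ⟨k1, k2⟩ := H2 (Fin.tail σ) x (hmem x hx h1) y (hmem y hy h2) hxy
      refine ⟨fun e he => ?_, ?_⟩
      · rw [Gn _ _ _ h1, Gn _ _ _ h2, k1 e he]
      · rw [Gn _ _ _ h1, Gn _ _ _ h2]
        omega
    · by_cases ht : Fin.tail σ = Fin.tail σ'
      · have h0 : σ 0 ≠ σ' 0 := fun h => hσ (by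
          rw [← Fin.cons_self_tail σ, ← Fin.cons_self_tail σ', ht, h])
        cases h : σ 0
        · have h' : σ' 0 = true := by simpa [h] using h0
          refine ⟨b, hb, a, ha, hab.symm, ?_, ?_⟩ <;>
            simp [hs b a, Gb, Gn _ _ _ hab, h, h']
        · have h' : σ' 0 = false := by simpa [h] using h0
          refine ⟨a, ha, b, hb, hab, ?_, ?_⟩ <;> simp [Gb, Gn _ _ _ hab, h, h']
      · obtain ⟨x, hx, y, hy, hxy, k1, k2⟩ := H3 _ _ ht
        obtain ⟨h1, hx'⟩ := mem_erase.1 hx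
        obtain ⟨h2, hy'⟩ := mem_erase.1 hy
        refine ⟨x, hx', y, hy', hxy, ?_, ?_⟩ <;> rw [Gn _ _ _ h1, Gn _ _ _ h2] <;> omega

end Pool.Agent.P.MP_0a2852_co.Full
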