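import Pool.Agent.P.MP_0a2852_co.Full.Tools

/-! Flats of the grid: boosting, slices, good samples, and the union bound over data. -/

namespace Pool.Agent.P.MP_0a2852_co.Full

open Finset

variable {C : Type} [Fintype C] [DecidableEq C] {A : C → Type} [∀ c, Fintype (A c)]
  [∀ c, DecidableEq (A c)] {L : ℕ}

/-- The flat of `b`: every coordinate in `b` is zero in some row of `p`. -/
def InF (z : ∀ c, A c) (b : C → Prop) (p : Fin L → ∀ c, A c) : Prop :=
  ∀ c, b c → ∃ l, p l c = z c

open Classical in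
theorem boost {K : Type} (z : ∀ c, A c) {u lam : ℕ} (hL : L = u * lam) (b : C → Prop)
    (x y : (Fin L → ∀ c, A c) → K) (h : Fintype.card (Fin L → ∀ c, A c) <
      2 ^ lam * (univ.filter fun p => InF z b p ∧ x p ≠ y p).card) :
    u * (univ.filter fun ω : ∀ c, A c =>
      ∀ p, InF z (fun c => b c ∨ ω c = z c) p → x p = y p).card ≤ Fintype.card (∀ c, A c) := by
  by_contra hc
  set S := univ.filter fun ω : ∀ c, A c => ∀ p, InF z (fun c => b c ∨ ω c = z c) p → x p = y p
  have h1 := half (Fintype.card_pos_iff.2 ⟨z⟩) (card_le_univ S) (not_le.1 hc).le lam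
  have h2 : (univ.filter fun p => InF z b p ∧ x p ≠ y p) ⊆ Fintype.piFinset fun _ => Sᶜ := by
    intro p hp
    obtain ⟨h3, h4⟩ := (mem_filter.1 hp).2
    refine Fintype.mem_piFinset.2 fun l => mem_compl.2 fun h5 => h4 ((mem_filter.1 h5).2 p ?_)
    exact fun c hc => hc.elim (h3 c) fun h6 => ⟨l, h6⟩
  have h3 := card_le_card h2
  rw [Fintype.card_piFinset, prod_const, card_univ, Fintype.card_fin, card_compl] at h3
  rw [Fintype.card_fun, Fintype.card_fin] at h
  rw [← hL] at h1
  have := Nat.mul_le_mul_left (2 ^ lam) h3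
  omega

open Classical in
theorem slice (z : ∀ c, A c) (c : C) :
    (univ.filter fun p : Fin L → ∀ c, A c => ∃ l, p l c = z c).card * Fintype.card (A c) ≤
      L * Fintype.card (Fin L → ∀ c, A c) := by
  have h1 : ∀ l : Fin L, (univ.filter fun p : Fin L → ∀ c, A c => p l c = z c).card *
      Fintype.card (A c) ≤ Fintype.card (Fin L → ∀ c, A c) := by
    intro l
    rw [← card_univ (α := A c), ← card_product, ← card_univ]
    refine card_le_card_of_injOn (fun q => Function.update q.1 l (Function.update (q.1 l) c q.2))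
      (fun _ _ => mem_univ _) ?_
    rintro ⟨p, m⟩ hp ⟨p', m'⟩ hp' h
    have h2 : p l c = z c := by simpa using hp
    have h3 : p' l c = z c := by simpa using hp'
    refine Prod.ext (funext fun l' => funext fun c' => ?_) (by simpa using congrFun (congrFun h l) c)
    have h4 := congrFun (congrFun h l') c'
    by_cases hl : l' = l
    · subst hl
      by_cases hc : c' = c
      · subst hc; exact h2.trans h3.symm
      · simpa [hc] using h4
    · simpa [hl] using h4
  have h2 : (univ.filter fun p : Fin L → ∀ c, A c => ∃ l, p l c = z c) ⊆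
      univ.biUnion fun l : Fin L => univ.filter fun p => p l c = z c := by
    intro p hp
    simpa using hp
  calc _ ≤ (∑ l : Fin L, (univ.filter fun p : Fin L → ∀ c, A c => p l c = z c).card) *
        Fintype.card (A c) := Nat.mul_le_mul_right _ ((card_le_card h2).trans card_biUnion_le)
    _ ≤ ∑ _l : Fin L, Fintype.card (Fin L → ∀ c, A c) := by
        rw [sum_mul]; exact sum_le_sum fun l _ => h1 l
    _ = _ := by simp

open Classical in
theorem good {K ε : Type} (z : ∀ c, A c) {u lam : ℕ} (hL : L = u * lam) (Ev : Finset ε)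
    (hu : 2 * Ev.card < u) (b : ε → C → Prop) (x y : ε → (Fin L → ∀ c, A c) → K)
    (h : ∀ v ∈ Ev, Fintype.card (Fin L → ∀ c, A c) <
      2 ^ lam * (univ.filter fun p => InF z (b v) p ∧ x v p ≠ y v p).card)
    (J : Finset C) (Mx : ℕ) (hM : ∀ c ∈ J, Fintype.card (A c) ≤ Mx) :
    Fintype.card (∀ c, A c) ≤ 2 * Mx ^ J.card * (univ.filter fun ω : ∀ c, A c =>
      (∀ v ∈ Ev, ∃ p, InF z (fun c => b v c ∨ (c ∉ J ∧ ω c = z c)) p ∧ x v p ≠ y v p) ∧
        ∀ c ∈ J, ω c = z c).card := by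
  have h1 := reset J z Mx hM
    (fun ω => ∀ v ∈ Ev, ∃ p, InF z (fun c => b v c ∨ (c ∉ J ∧ ω c = z c)) p ∧ x v p ≠ y v p)
  let S : ε → Finset (∀ c, A c) := fun v => univ.filter fun ω : ∀ c, A c =>
      ∀ p, InF z (fun c => b v c ∨ ω c = z c) p → x v p = y v p
  have h2 : u * (Ev.biUnion S).card ≤ Ev.card * Fintype.card (∀ c, A c) := by
    refine (Nat.mul_le_mul_left _ card_biUnion_le).trans ?_
    rw [mul_sum, ← smul_eq_mul Ev.card]
    exact sum_le_card_nsmul _ _ _ fun v hv => boost z hL (b v) (x v) (y v) (h v hv)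
  have h3 : (Ev.biUnion S)ᶜ ⊆ univ.filter fun ω : ∀ c, A c => ∀ v ∈ Ev, ∃ p, InF z
      (fun c => b v c ∨ (c ∉ J ∧ J.piecewise z ω c = z c)) p ∧ x v p ≠ y v p := by
    intro ω hω
    refine mem_filter.2 ⟨mem_univ _, fun v hv => ?_⟩
    by_contra hc
    push Not at hc
    refine mem_compl.1 hω (mem_biUnion.2 ⟨v, hv, mem_filter.2 ⟨mem_univ _, fun p hp => hc p ?_⟩⟩)
    refine fun c h4 => hp c (h4.imp_right fun h5 => ?_)
    rw [← h5.2, piecewise_eq_of_notMem _ _ _ h5.1]
  have h4 := (card_le_card h3).trans h1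
  rw [card_compl] at h4
  have h5 : 2 * (Ev.biUnion S).card ≤ Fintype.card (∀ c, A c) :=
    Nat.le_of_mul_le_mul_left (c := u) (by nlinarith) (by omega)
  rw [mul_assoc]
  omega

theorem cover₂ {Ω κ I K : Type} [Fintype Ω] [Nonempty Ω] [Fintype κ] [Fintype I] [Fintype K]
    [Zero K] {Q : ℕ} (hK : Fintype.card K = 2 ^ Q) (U : κ → Finset I)
    (E : κ × (I → K) → Finset Ω) (P μ : ℕ) : ∃ F : Finset Ω,
      F.card ≤ P * (Fintype.card κ + Q * μ) ∧ ∀ d : κ × (I → K), (U d.1).card ≤ μ →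
        (∀ i, i ∉ U d.1 → d.2 i = 0) → Fintype.card Ω ≤ P * (E d).card → ∃ ω ∈ F, ω ∈ E d := by
  classical
  obtain ⟨F, h1, h2⟩ := cover (univ.filter fun d : κ × (I → K) => (U d.1).card ≤ μ ∧
    (∀ i, i ∉ U d.1 → d.2 i = 0) ∧ Fintype.card Ω ≤ P * (E d).card) E P
    (Fintype.card κ + Q * μ) (fun d hd => (mem_filter.1 hd).2.2.2) (by
      refine lt_of_le_of_lt (card_le_mul_card_image_of_maps_to (f := Prod.fst) (t := univ)
        (fun _ _ => mem_univ _) (2 ^ (Q * μ)) fun a _ => ?_) ?_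
      · by_cases ha : (U a).card ≤ μ
        · refine le_trans (card_le_card_of_injOn Prod.snd ?_ ?_) ((supp_card (K := K) (U a)).trans ?_)
          · intro d hd
            obtain ⟨h1, rfl⟩ := mem_filter.1 hd
            exact mem_filter.2 ⟨mem_univ _, (mem_filter.1 h1).2.2.1⟩
          · intro d hd d' hd' h
            exact Prod.ext ((mem_filter.1 hd).2.trans (mem_filter.1 hd').2.symm) h
          · rw [hK, ← pow_mul]
            exact Nat.pow_le_pow_right (by norm_num) (Nat.mul_le_mul_left _ ha)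
        · rw [filter_eq_empty_iff.2 fun d hd (h : d.1 = a) => ha (h ▸ (mem_filter.1 hd).2.1)]
          simp
      · rw [pow_add, mul_comm, card_univ]
        exact Nat.mul_lt_mul_of_pos_right Nat.lt_two_pow_self (Nat.two_pow_pos _))
  exact ⟨F, h1, fun d a b c => h2 d (mem_filter.2 ⟨mem_univ _, a, b, c⟩)⟩

open Classical in
theorem dens {Ω Ξ : Type} [Fintype Ω] [Fintype Ξ] (E : Ω × Ξ → Prop) (S : Finset Ω) (P P' : ℕ)
    (h : Fintype.card Ω ≤ P * S.card)
    (h' : ∀ ω ∈ S, Fintype.card Ξ ≤ P' * (univ.filter fun ξ => E (ω, ξ)).card) :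
    Fintype.card (Ω × Ξ) ≤ P * P' * (univ.filter E).card := by
  have h1 : ∑ ω ∈ S, (univ.filter fun ξ => E (ω, ξ)).card ≤ (univ.filter E).card := by
    rw [← card_sigma]
    refine card_le_card_of_injOn (fun q => (q.1, q.2)) (fun q hq => ?_) ?_
    · simpa using (mem_sigma.1 hq).2
    · rintro ⟨a, b⟩ _ ⟨c, d⟩ _ h
      obtain ⟨rfl, rfl⟩ := Prod.mk.inj h
      rfl
  have h2 : S.card * Fintype.card Ξ ≤ P' * (univ.filter E).card := by
    refine le_trans ?_ (Nat.mul_le_mul_left _ h1)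
    rw [mul_sum, ← smul_eq_mul]
    exact card_nsmul_le_sum _ _ _ h'
  rw [Fintype.card_prod, mul_assoc]
  exact (Nat.mul_le_mul_right _ h).trans (by rw [mul_assoc]; exact Nat.mul_le_mul_left _ h2)

end Pool.Agent.P.MP_0a2852_co.Full
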