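import Pool.Agent.P.MP_0a2852_co.Full.Solve
import Pool.Agent.P.MP_0a2852_co.Full.Grid

/-! What an order reads, and why every prescribed tree order is hit by a dense event. -/

namespace Pool.Agent.P.MP_0a2852_co.Full

open Finset Relation

theorem Par.lt {e e' : ℕ} (h : Par e e') : e' < e := by
  obtain ⟨c, -, rfl⟩ := h
  have := Nat.two_pow_pos c
  omega

theorem Par.uniq {e e' e'' : ℕ} (h : Par e e') (h' : Par e e'') : e' = e'' := by
  obtain ⟨c, h1, h2⟩ := h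
  obtain ⟨d, h3, h4⟩ := h'
  have key : ∀ {x y c d : ℕ}, 2 ^ (c + 1) ∣ x → 2 ^ (d + 1) ∣ y → x + 2 ^ c = y + 2 ^ d →
      ¬ c < d := fun {x y c d} g1 g2 g3 g4 => by
    have := Nat.two_pow_pos c
    refine not_dvd_mid (e := x + 2 ^ c) g1 (by omega) (by rw [pow_succ]; omega) ?_
    rw [g3]
    exact dvd_add ((pow_dvd_pow 2 (by omega)).trans g2) (pow_dvd_pow 2 g4)
  obtain rfl : c = d := le_antisymm (not_lt.1 (key h3 h1 (by omega))) (not_lt.1 (key h1 h3 (by omega)))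
  omega

theorem anc_le {e e' : ℕ} (h : ReflTransGen Par e e') : e' ≤ e := by
  induction h with
  | refl => exact le_rfl
  | tail _ h ih => exact h.lt.le.trans ih

section
variable {ι : Type} {vis : ι → ℕ → Finset (ℕ × ℕ) → Prop} {K T D : ℕ} {Δ : Finset ι}
  {B : Finset (ℕ × ℕ)} {N : Finset ℕ} {s : ℕ} {t : ι → ℕ}

theorem Sol.anc (h : Sol vis K 1 T D 0 ∅ Δ 0 B N s t) {e e' : ℕ} (he : e ∈ N)
    (h' : ReflTransGen Par e e') : e' ∈ N ∨ e' = 0 := by
  induction h' with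
  | refl => exact Or.inl he
  | tail _ h2 ih =>
    rcases ih with ih | rfl
    · obtain ⟨e'', g1, g2, -⟩ := h.lab _ ih
      exact g2.uniq h2 ▸ g1
    · exact absurd h2.lt (Nat.not_lt_zero _)

theorem Sol.seen (h : Sol vis K 1 T D 0 ∅ Δ 0 B N s t)
    (hv : ∀ v r β β', β ⊆ β' → vis v r β' → vis v r β) {v : ι} (hΔ : v ∈ Δ) (e : ℕ) :
    e ∈ N → t v ≤ e → ∃ e' ∈ N, ReflTransGen Par e e' ∧ ∃ r, 2 ^ r ∣ e' ∧
      vis v r (cut (insert (e', s + 1) B) r e') := by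
  induction e using Nat.strong_induction_on with
  | _ e ih =>
    intro he ht
    rcases ht.eq_or_lt with rfl | ht
    · obtain ⟨r, g1, g2, g3⟩ := h.see v hΔ
      refine ⟨_, he, .refl, r, g1, hv _ _ _ _ (fun z hz => ?_) g3⟩
      obtain ⟨g4, g5⟩ := mem_cut.1 hz
      refine mem_cut.2 ⟨mem_union_right _ ((mem_insert.1 g4).resolve_left ?_), g5⟩
      rintro rfl
      exact g2 g5.1
    obtain ⟨e', g1, g2, g3⟩ := h.lab e he
    by_cases g4 : e' < t v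
    · obtain ⟨r, g5, g6⟩ := g3 v hΔ g4 ht (s + 1) (by omega) le_rfl
      refine ⟨e, he, .refl, r, (pow_dvd_pow 2 (by omega)).trans g5,
        hv _ _ _ _ (fun z hz => ?_) g6⟩
      obtain ⟨g7, g8⟩ := mem_cut.1 hz
      exact mem_insert.2 ((mem_insert.1 g7).imp_right fun g9 =>
        mem_cut.2 ⟨mem_union_right _ g9, g8⟩)
    · have := (h.rng (h.ht v hΔ)).1
      obtain ⟨e'', g5, g6, g7⟩ := ih e' g2.lt (g1.resolve_right (by omega)) (not_lt.1 g4)
      exact ⟨e'', g5, .head g2 g6, g7⟩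

end

variable {Co : Finset (ℕ × ℕ)} {A : Co → Type} [∀ c, Fintype (A c)] [∀ c, DecidableEq (A c)]
  {L D k R : ℕ} {K : Type}

/-- The positions read at time `e`. -/
def Rd (z : ∀ c, A c) (a : ℕ) (ω : ∀ c, A c) (e : ℕ) (i : Fin D × (Fin L → ∀ c, A c)) : Prop :=
  ∃ e', ReflTransGen Par e e' ∧ 0 < e' ∧ 2 ^ (i.1 : ℕ) ∣ e' ∧ InF z (fun c =>
    2 ^ ((i.1 : ℕ) + 1) ∣ c.1.1 ∧ ((ω c = z c ∧ e' ≤ c.1.1) ∨ c.1 = (e', a))) i.2

open Classical in
/-- The part of `x` read at time `e`. -/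
noncomputable def val [Zero K] (z : ∀ c, A c) (a : ℕ) (ω : ∀ c, A c) (e : ℕ)
    (x : Fin D × (Fin L → ∀ c, A c) → K) : Fin D × (Fin L → ∀ c, A c) → K :=
  fun i => if Rd z a ω e i then x i else 0

omit [∀ c, Fintype (A c)] [∀ c, DecidableEq (A c)] in
theorem val_eq [Zero K] {z : ∀ c, A c} {a : ℕ} {ω : ∀ c, A c} {e : ℕ}
    {x y : Fin D × (Fin L → ∀ c, A c) → K} :
    val z a ω e x = val z a ω e y ↔ ∀ i, Rd z a ω e i → x i = y i := by
  refine ⟨fun h i hi => by simpa [val, hi] using congrFun h i, fun h => funext fun i => ?_⟩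
  by_cases hi : Rd z a ω e i
  · simp [val, hi, h i hi]
  · simp [val, hi]

/-- The two points of `v` differ in unit `r` on the flat of `β`. -/
def vis (z : ∀ c, A c) (X : Fin k → Fin D × (Fin L → ∀ c, A c) → K) (v : Fin k × Fin k) (r : ℕ)
    (β : Finset (ℕ × ℕ)) : Prop :=
  ∃ i : Fin D × (Fin L → ∀ c, A c), (i.1 : ℕ) = r ∧ InF z (fun c => c.1 ∈ β) i.2 ∧
    X v.1 i ≠ X v.2 i

omit [∀ c, Fintype (A c)] [∀ c, DecidableEq (A c)] in
theorem vis_anti (z : ∀ c, A c) (X : Fin k → Fin D × (Fin L → ∀ c, A c) → K) (v r β β')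
    (h : β ⊆ β') : vis z X v r β' → vis z X v r β :=
  fun ⟨i, h1, h2, h3⟩ => ⟨i, h1, fun c hc => h2 c (h hc), h3⟩

/-- The event of a datum. -/
def Ev [Zero K] (z : ∀ c, A c) (a : ℕ) (d : (Finset Co × Finset (Fin (2 ^ D)) ×
    (Fin (2 ^ D) → Fin k → Fin R) × Finset (Fin k × Fin D × (Fin L → ∀ c, A c))) ×
    (Fin k × Fin D × (Fin L → ∀ c, A c) → K))
    (q : (∀ c, A c) × (Fin (2 ^ D) × (Fin D × (Fin L → ∀ c, A c) → K) → Fin R)) : Prop :=
  (∀ c ∈ d.1.1, q.1 c = z c) ∧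
    ∀ e ∈ d.1.2.1, ∀ i, q.2 (e, val z a q.1 e fun j => d.2 (i, j)) = d.1.2.2.1 e i

set_option synthInstance.maxSize 1024 in
open Classical in
theorem hit [Zero K] [Fintype K] (z : ∀ c, A c) (X : Fin k → Fin D × (Fin L → ∀ c, A c) → K)
    {T lam u Mx sl s : ℕ} {B : Finset (ℕ × ℕ)} {N : Finset ℕ} {t : Fin k × Fin k → ℕ}
    (h : Sol (vis z X) (k * k) 1 T D 0 ∅ univ.offDiag 0 B N s t)
    (hCo : ∀ e ∈ W (k * k) D, (e, s + 1) ∈ Co)
    (hc : ∀ i i' r, ∀ β : Finset (ℕ × ℕ), β.card ≤ T + 1 →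
      (∃ p, InF z (fun c => c.1 ∈ β) p ∧ X i (r, p) ≠ X i' (r, p)) →
      Fintype.card (Fin L → ∀ c, A c) < 2 ^ lam *
        (univ.filter fun p => InF z (fun c => c.1 ∈ β) p ∧ X i (r, p) ≠ X i' (r, p)).card)
    (hL : L = u * lam) (hu : 2 * (k * k * T) < u) (hMx : 0 < Mx) (hR : 0 < R)
    (hM : ∀ c : Co, c.1.2 ≤ s → Fintype.card (A c) ≤ Mx)
    (hsl : ∀ c : Co, c.1.2 = s + 1 →
      (univ.filter fun p : Fin L → ∀ c, A c => ∃ l, p l c = z c).card ≤ sl)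
    (H : ℕ → Fin k → Fin R) (hH : ∀ i i', i ≠ i' → ∀ e < t (i, i'), H e i = H e i') :
    ∃ d, d.1.2.2.2.card ≤ k * (T * (Fintype.card (Fin L → ∀ c, A c) + D * sl)) ∧
      (∀ i, i ∉ d.1.2.2.2 → d.2 i = 0) ∧
      Fintype.card ((∀ c, A c) × (Fin (2 ^ D) × (Fin D × (Fin L → ∀ c, A c) → K) → Fin R)) ≤
        2 * Mx ^ T * R ^ (T * k) * (univ.filter (Ev (k := k) z (s + 1) d)).card ∧
      ∀ q, Ev z (s + 1) d q →
        (∀ i i', i ≠ i' → ∀ e < t (i, i'), val z (s + 1) q.1 e (X i) = val z (s + 1) q.1 e (X i')) ∧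
        ∀ e : Fin (2 ^ D), e.1 ∈ N → ∀ i, q.2 (e, val z (s + 1) q.1 e (X i)) = H e i := by
  let J : Finset Co := univ.filter fun c => c.1 ∈ B
  let N' : Finset (Fin (2 ^ D)) := univ.filter fun e => e.1 ∈ N
  let U : ℕ → Finset (Fin D × (Fin L → ∀ c, A c)) := fun e =>
    (univ.filter fun r : Fin D => 2 ^ r.1 ∣ e ∧ ¬ 2 ^ (r.1 + 1) ∣ e) ×ˢ univ ∪
      univ ×ˢ univ.filter fun p => InF z (fun c => c.1 = (e, s + 1)) p
  have hJ : J.card ≤ T := (card_le_card_of_injOn Subtype.val (fun c hc => (mem_filter.1 hc).2)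
    Subtype.val_injective.injOn).trans h.cB
  have hN' : N'.card ≤ T := (card_le_card_of_injOn Fin.val (fun c hc => (mem_filter.1 hc).2)
    Fin.val_injective.injOn).trans h.cN
  have hU : ∀ e ∈ N, (U e).card ≤ Fintype.card (Fin L → ∀ c, A c) + D * sl := by
    intro e he
    obtain ⟨w, hw, rfl⟩ := h.hN e he
    rw [zero_add] at *
    refine (card_union_le _ _).trans (add_le_add ?_ ?_)
    · rw [card_product, card_univ]
      refine (Nat.mul_le_mul_right _ (card_le_one.2 fun a ha b hb => ?_)).trans_eq (one_mul _)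
      obtain ⟨a1, a2⟩ := (mem_filter.1 ha).2
      obtain ⟨b1, b2⟩ := (mem_filter.1 hb).2
      exact Fin.ext (le_antisymm (not_lt.1 fun g => b2 ((pow_dvd_pow 2 g).trans a1))
        (not_lt.1 fun g => a2 ((pow_dvd_pow 2 g).trans b1)))
    · rw [card_product, card_univ, Fintype.card_fin]
      refine Nat.mul_le_mul_left _ ((card_le_card fun p hp => ?_).trans (hsl ⟨_, hCo w hw⟩ rfl))
      exact mem_filter.2 ⟨mem_univ _, (mem_filter.1 hp).2 _ rfl⟩
  have hval : ∀ ω, ∀ e ∈ N, ∀ i, val z (s + 1) ω e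
      (fun j => if j ∈ N.biUnion U then X i j else 0) = val z (s + 1) ω e (X i) := by
    refine fun ω e he i => val_eq.2 fun j ⟨e', g1, g2, g3, g4⟩ => if_pos (mem_biUnion.2
      ⟨e', (h.anc he g1).resolve_right g2.ne', ?_⟩)
    by_cases g5 : 2 ^ (j.1.1 + 1) ∣ e'
    · refine mem_union_right _ (mem_product.2 ⟨mem_univ _, mem_filter.2 ⟨mem_univ _, ?_⟩⟩)
      exact fun c hc => g4 c ⟨by rw [hc]; exact g5, Or.inr hc⟩
    · exact mem_union_left _ (mem_product.2 ⟨mem_filter.2 ⟨mem_univ _, g3, g5⟩, mem_univ _⟩)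
  refine ⟨((J, N', fun e => H e, univ ×ˢ N.biUnion U), fun i => if i.2 ∈ N.biUnion U then
    X i.1 i.2 else 0), ?_, fun i hi => if_neg (by simpa using hi), ?_, fun q hq => ⟨?_, ?_⟩⟩
  · rw [card_product, card_univ, Fintype.card_fin]
    exact Nat.mul_le_mul_left _ ((card_biUnion_le_card_mul _ _ _ hU).trans
      (Nat.mul_le_mul_right _ h.cN))
  · let Es := (univ ×ˢ N).filter fun v : (Fin k × Fin k) × ℕ =>
      ∃ r, 2 ^ r ∣ v.2 ∧ vis z X v.1 r (cut (insert (v.2, s + 1) B) r v.2)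
    have hex : ∀ v : Es, ∃ r : Fin D, 2 ^ r.1 ∣ v.1.2 ∧ ∃ p, InF z (fun c => c.1 ∈
        cut (insert (v.1.2, s + 1) B) r v.1.2) p ∧ X v.1.1.1 (r, p) ≠ X v.1.1.2 (r, p) := by
      rintro ⟨v, hv⟩
      obtain ⟨r, g1, i, rfl, g2⟩ := (mem_filter.1 hv).2
      exact ⟨i.1, g1, i.2, g2⟩
    choose ρ ρ1 ρ2 using hex
    have hE : (univ : Finset Es).card ≤ k * k * T := by
      rw [card_univ, Fintype.card_coe]
      refine (card_filter_le _ _).trans ?_
      rw [card_product, card_univ, Fintype.card_prod, Fintype.card_fin]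
      exact Nat.mul_le_mul_left _ h.cN
    have hg := good z hL (univ : Finset Es) (by omega)
      (fun v c => c.1 ∈ cut (insert (v.1.2, s + 1) B) (ρ v) v.1.2)
      (fun v p => X v.1.1.1 (ρ v, p)) (fun v p => X v.1.1.2 (ρ v, p))
      (fun v _ => hc _ _ _ _ ((card_filter_le _ _).trans ((card_insert_le _ _).trans
        (Nat.add_le_add_right h.cB 1))) (ρ2 v)) J Mx
      (fun c hc => hM c (h.hB _ (mem_filter.1 hc).2).2)
    refine dens _ _ _ _ (hg.trans (Nat.mul_le_mul_right _ (Nat.mul_le_mul_left _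
      (Nat.pow_le_pow_right hMx hJ)))) fun ω hω => ?_
    obtain ⟨g1, g2⟩ := ((@mem_filter _ _ (_) _ _).1 hω).2
    refine (prescribe hR (N' ×ˢ univ) (fun v : Fin (2 ^ D) × Fin k =>
      (v.1, val z (s + 1) ω v.1 (X v.2))) (fun v => H v.1 v.2) ?_ (T * k) ?_).trans
      (Nat.mul_le_mul_left _ (card_le_card fun ξ hξ => mem_filter.2 ⟨mem_univ _, g2, ?_⟩))
    · rintro ⟨e, i⟩ he ⟨e', i'⟩ - hv
      obtain ⟨rfl, hv⟩ : e = e' ∧ _ := Prod.mk.inj hv
      by_cases hi : i = i'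
      · rw [hi]
      refine hH i i' hi e (not_le.1 fun ht => ?_)
      obtain ⟨e', a1, a2, a3⟩ := h.seen (vis_anti z X) (v := (i, i')) (by simpa using hi) e
        (mem_filter.1 (mem_product.1 he).1).2 ht
      let v : Es := ⟨((i, i'), e'), mem_filter.2 ⟨mem_product.2 ⟨mem_univ _, a1⟩, a3⟩⟩
      obtain ⟨p, a4, a5⟩ := g1 v (mem_univ _)
      refine a5 (val_eq.1 hv (ρ v, p) ⟨e', a2, (h.rng a1).1, ρ1 v, fun c ⟨a6, a7⟩ => a4 c ?_⟩)
      rcases a7 with a7 | a7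
      · by_cases a8 : c ∈ J
        · exact Or.inl (mem_cut.2 ⟨mem_insert_of_mem (mem_filter.1 a8).2, a6, a7.2⟩)
        · exact Or.inr ⟨a8, a7.1⟩
      · exact Or.inl (mem_cut.2 ⟨mem_insert.2 (Or.inl a7), a6, by rw [a7]⟩)
    · rw [card_product, card_univ, Fintype.card_fin]
      exact Nat.mul_le_mul_right _ hN'
    · intro e he i
      have := ((@mem_filter _ _ (_) _ _).1 hξ).2 (e, i) (mem_product.2 ⟨he, mem_univ _⟩)
      rwa [← hval ω e (mem_filter.1 he).2 i] at this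
  · refine fun i i' hi e he => val_eq.2 fun j ⟨e', g1, g2, g3, g4⟩ => by_contra fun g5 => ?_
    refine h.blind (i, i') (by simpa using hi) e' g2 ((anc_le g1).trans_lt he) _ g3
      ⟨j, rfl, fun c hc => g4 c ?_, g5⟩
    obtain ⟨g6, g7, g8⟩ := mem_cut.1 hc
    exact ⟨g7, Or.inl ⟨hq.1 c (mem_filter.2 ⟨mem_univ _, by simpa using g6⟩), g8⟩⟩
  · intro e he i
    have := hq.2 e (mem_filter.2 ⟨mem_univ _, he⟩) i
    rwa [hval q.1 e he i] at this

end Pool.Agent.P.MP_0a2852_co.Full
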