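import Pool.Agent.P.MP_0a2852_co.Main
import Pool.Agent.P.MP_0a2852_co.Full.Count
import Pool.Agent.P.MP_0a2852_co.Full.Hit

/-! Assembly: `f k (2 ^ (k - 1)) n` is not `Ω(log n)`, hence `tau k = 2 ^ (k - 1) + 1`. -/

namespace Pool.Agent.P.MP_0a2852_co.Full

open Finset Filter Asymptotics

theorem lex {n : ℕ} (N : ℕ) (g : ℕ → Fin n → ℕ) : ∃ π : Equiv.Perm (Fin n), ∀ x y, ∀ e < N,
    (∀ e' < e, g e' x = g e' y) → g e x < g e y → π.symm x < π.symm y := by
  obtain ⟨π, hπ⟩ := exists_perm ((List.range N).map g ++ [Fin.val])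
    fun x y h => ⟨Fin.val, by simp, fun h' => h (Fin.ext h')⟩
  refine ⟨π, fun x y e he h1 h2 => (hπ x y).2 (lexLt_append.2 (Or.inl ?_))⟩
  clear hπ
  induction N with
  | zero => omega
  | succ N ih =>
    rw [List.range_succ, List.map_append, lexLt_append]
    rcases (Nat.le_of_lt_succ he).eq_or_lt with rfl | h
    · refine Or.inr ⟨fun g' hg => ?_, Or.inl h2⟩
      obtain ⟨e', h3, rfl⟩ := List.mem_map.1 hg
      exact h1 e' (List.mem_range.1 h3)
    · exact Or.inl (ih h)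

theorem params (K T E u : ℕ) (hE : 0 < E) (hu : 0 < u) : ∃ (D lam : ℕ) (M : ℕ → ℕ),
    Monotone M ∧ (∀ a, 0 < M a) ∧ 0 < lam ∧
    2 * ((T + 1 + 1) * ((W K D ×ˢ range (T + 2)).card + 1) ^ (T + 1)) ≤ 2 ^ lam ∧
    (∀ s ≤ T, E * M s ^ T ≤ D) ∧ ∀ s, E * (u * lam) * M s ^ T ≤ M (s + 1) := by
  set l := 1 + (T + 2) + (T + 1) * (K + T + 2) with hl
  obtain ⟨b, hb⟩ := poly_exp (E * (E * (u * l)) ^ ((T + 1) ^ T * T)) ((T + 1) ^ T * T)
  have h0 : 0 < E * (u * (l * (b + 1))) := by positivity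
  have hm : Monotone fun a => (E * (u * (l * (b + 1)))) ^ (T + 1) ^ a := fun a a' h =>
    Nat.pow_le_pow_right h0 (Nat.pow_le_pow_right (by omega) h)
  refine ⟨2 ^ b, l * (b + 1), _, hm, fun a => by positivity, by positivity, ?_, fun s hs => ?_,
    fun s => ?_⟩
  · have h1 := W_card (2 ^ b) K
    have h2 : T + 2 ≤ 2 ^ (T + 2) := Nat.lt_two_pow_self.le
    have h3 : (2 ^ b + 1) ^ K ≤ (2 ^ (b + 1)) ^ K :=
      Nat.pow_le_pow_left (by have := Nat.two_pow_pos b; rw [pow_succ]; omega) _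
    have h4 : (W K (2 ^ b) ×ˢ range (T + 2)).card + 1 ≤ (2 ^ (b + 1)) ^ K * 2 ^ (T + 2) := by
      rw [card_product, card_range]
      refine le_trans ?_ (Nat.mul_le_mul (h1.trans h3) h2)
      nlinarith
    calc _ ≤ 2 * (2 ^ (T + 2) * ((2 ^ (b + 1)) ^ K * 2 ^ (T + 2)) ^ (T + 1)) := by gcongr
      _ = 2 ^ (1 + (T + 2) + (T + 1) * ((b + 1) * K + (T + 2))) := by
          rw [← pow_mul, ← pow_add, ← pow_mul, ← pow_add, ← pow_succ']
          congr 1
          ring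
      _ ≤ _ := Nat.pow_le_pow_right (by norm_num) (by rw [hl]; nlinarith [Nat.zero_le (b * T * T)])
  · refine le_trans (Nat.mul_le_mul_left _ (Nat.pow_le_pow_left (hm hs) _)) (le_trans ?_ hb)
    rw [← pow_mul, mul_assoc E, ← mul_pow]
    exact le_of_eq (by ring)
  · show _ ≤ _ ^ (T + 1) ^ (s + 1)
    rw [pow_succ (T + 1), pow_mul, pow_succ']
    exact Nat.mul_le_mul_right _ (Nat.le_self_pow (by positivity) _)

theorem ultra {ι : Type} {vis : ι × ι → ℕ → Finset (ℕ × ℕ) → Prop} {K T D : ℕ}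
    {Δ : Finset (ι × ι)} {B : Finset (ℕ × ℕ)} {N : Finset ℕ} {s : ℕ} {t : ι × ι → ℕ}
    (h : Sol vis K 1 T D 0 ∅ Δ 0 B N s t) {u v w : ι × ι} (hu : u ∈ Δ) (hv : v ∈ Δ) (hw : w ∈ Δ)
    (tri : ∀ r β, vis w r β → vis u r β ∨ vis v r β) : min (t u) (t v) ≤ t w := by
  by_contra hc
  obtain ⟨r, h1, -, h2⟩ := h.see w hw
  have h3 := (h.rng (h.ht w hw)).1
  rcases tri _ _ h2 with h4 | h4
  · exact h.blind u hu _ h3 (by omega) r h1 h4
  · exact h.blind v hv _ h3 (by omega) r h1 h4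

set_option synthInstance.maxSize 1024 in
theorem main (m C : ℕ) : ∃ c₁ c₂ d Q₀ : ℕ, 2 * C * c₂ < d ∧ ∀ Q, Q₀ ≤ Q →
    ∃ P : Finset (Equiv.Perm (Fin (2 ^ (Q * d)))), P.card ≤ c₁ + Q * c₂ ∧
      ∀ S : Finset (Fin (2 ^ (Q * d))), S.card = m + 1 → Shatters P (2 ^ m) S := by
  classical
  set k := m + 1 with hk
  obtain ⟨T, hT⟩ := solve (Fin k × Fin k) (k * k) 1
  set R := 3 ^ k with hR
  have hR0 : 0 < R := by positivity
  set E := 8 * C * (T + 1) * R ^ (T * k) * k * T with hE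
  obtain ⟨D, lam, M, M1, M2, l0, l1, M3, M4⟩ := params (k * k) T (2 * E + 1) (2 * (k * k * T) + 1)
    (by omega) (by omega)
  set L := (2 * (k * k * T) + 1) * lam with hL
  set Co := W (k * k) D ×ˢ range (T + 2)
  let A : Co → Type := fun c => Fin (M c.1.2)
  let z : ∀ c, A c := fun c => ⟨0, M2 _⟩
  let Γ := Co.powerset.filter fun β => β.card ≤ T + 1
  have hΓ : 2 * Γ.card ≤ 2 ^ lam := (Nat.mul_le_mul_left _ (small_sets Co (T + 1))).trans l1
  set G := Fintype.card (Fin L → ∀ c, A c) with hG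
  have G0 : 0 < G := Fintype.card_pos_iff.2 ⟨fun _ => z⟩
  have hw : 2 * (G / 2 ^ lam * Γ.card) ≤ G := by
    have := Nat.div_mul_le_self G (2 ^ lam)
    nlinarith [Nat.mul_le_mul_left (G / 2 ^ lam) hΓ]
  obtain ⟨g, hg⟩ : ∃ g, G = g + G / 2 ^ lam * Γ.card := ⟨G - G / 2 ^ lam * Γ.card, by omega⟩
  let sl := fun s => L * G / M (s + 1)
  let Pr := fun s => 2 * M s ^ T * R ^ (T * k)
  let μ := fun s => k * (T * (G + D * sl s))
  let κ := Finset Co × Finset (Fin (2 ^ D)) × (Fin (2 ^ D) → Fin k → Fin R) ×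
    Finset (Fin k × Fin D × (Fin L → ∀ c, A c))
  refine ⟨∑ s ∈ range (T + 1), Pr s * Fintype.card κ, ∑ s ∈ range (T + 1), Pr s * μ s, D * g,
    G + 1, ?_, fun Q hQ => ?_⟩
  · have h1 : ∀ s ∈ range (T + 1), 4 * C * (T + 1) * (Pr s * μ s) < D * G := by
      intro s hs
      have h2 := M3 s (by simpa [Nat.lt_succ_iff] using hs)
      have h3 : L * ((2 * E + 1) * M s ^ T * sl s) ≤ L * G := calc
        _ = sl s * ((2 * E + 1) * L * M s ^ T) := by ring
        _ ≤ sl s * M (s + 1) := Nat.mul_le_mul_left _ (M4 s)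
        _ ≤ _ := Nat.div_mul_le_self _ _
      have h4 := Nat.mul_le_mul_left D (Nat.le_of_mul_le_mul_left h3 (by positivity))
      have h5 := Nat.mul_le_mul_right G h2
      have h6 : 0 < M s ^ T * G := Nat.mul_pos (pow_pos (M2 s) _) G0
      have h7 : 4 * C * (T + 1) * (Pr s * μ s) = E * (M s ^ T * G) + E * (D * (M s ^ T * sl s)) := by
        simp only [Pr, μ, hE]; ring
      nlinarith [Nat.zero_le (D * (M s ^ T * sl s))]
    have h2 := sum_lt_sum_of_nonempty (nonempty_range_iff.2 (by omega)) h1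
    rw [← mul_sum, sum_const, card_range, smul_eq_mul, mul_comm (4 * C), mul_assoc] at h2
    have h3 := Nat.lt_of_mul_lt_mul_left h2
    have h4 : D * G ≤ D * (2 * g) := Nat.mul_le_mul_left _ (by omega)
    nlinarith
  let F := GaloisField 2 Q
  let _ : Fintype F := Fintype.ofFinite _
  have hF : Fintype.card F = 2 ^ Q := by
    rw [← Nat.card_eq_fintype_card]; exact GaloisField.card 2 Q (by omega)
  obtain ⟨V, V1, V2⟩ := code (G := Fin L → ∀ c, A c) (K := F)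
    (by rw [hF]; exact (by omega : G ≤ Q).trans Nat.lt_two_pow_self.le) Γ
    (fun β => univ.filter (InF z fun c => c.1 ∈ β)) (G / 2 ^ lam)
  have V3 : (2 ^ Q) ^ g ≤ V.card := by
    rw [← hG, hF] at V1
    nth_rewrite 1 [hg] at V1
    rw [pow_add] at V1
    exact Nat.le_of_mul_le_mul_right V1 (by positivity)
  obtain ⟨pt⟩ : Nonempty (Fin (2 ^ (Q * (D * g))) ↪ (Fin D → V)) :=
    Function.Embedding.nonempty_of_card_le (by
      rw [Fintype.card_fun, Fintype.card_fin, Fintype.card_fin, Fintype.card_coe, mul_comm D,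
        ← mul_assoc, pow_mul, pow_mul]
      exact Nat.pow_le_pow_left V3 _)
  let Ω := (∀ c, A c) × (Fin (2 ^ D) × (Fin D × (Fin L → ∀ c, A c) → F) → Fin R)
  have : Nonempty Ω := ⟨(z, fun _ => ⟨0, hR0⟩)⟩
  have hcov := fun s => cover₂ (Ω := Ω) (κ := κ) hF (fun d => d.2.2.2)
    (fun d => univ.filter (Ev z (s + 1) d)) (Pr s) (μ s)
  choose Fam Fam1 Fam2 using hcov
  let x : Fin (2 ^ (Q * (D * g))) → Fin D × (Fin L → ∀ c, A c) → F := fun y i => (pt y i.1).1 i.2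
  let γ : ℕ → Ω → ℕ → Fin (2 ^ (Q * (D * g))) → ℕ := fun s q e y =>
    if h : e < 2 ^ D then (q.2 (⟨e, h⟩, val z (s + 1) q.1 e (x y))).1 else 0
  choose π hπ using fun s q => lex (2 ^ D) (γ s q)
  refine ⟨(range (T + 1)).biUnion fun s => (Fam s).image (π s), ?_, fun S hS => ?_⟩
  · rw [mul_sum, ← sum_add_distrib]
    refine card_biUnion_le.trans (sum_le_sum fun s _ => card_image_le.trans ((Fam1 s).trans_eq ?_))
    ring
  let φ := S.orderEmbOfFin hS
  obtain ⟨B, N, s, t, h⟩ := hT (vis z fun i => x (φ i)) (vis_anti z _) D 0 ∅ univ.offDiag 0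
    (dvd_zero _) (by simp) ((card_le_univ _).trans (by simp)) (by
      intro v hv
      have h1 : pt (φ v.1) ≠ pt (φ v.2) := fun h => (mem_offDiag.1 hv).2.2
        (φ.injective (pt.injective h))
      obtain ⟨r, h2⟩ := Function.ne_iff.1 h1
      obtain ⟨p, h3⟩ := Function.ne_iff.1 (Subtype.coe_ne_coe.2 h2)
      exact ⟨r, r.2, (r, p), rfl, fun c hc => by simp [cut] at hc, h3⟩)
  have mem : ∀ {a b : Fin k}, a ≠ b → (a, b) ∈ (univ : Finset (Fin k)).offDiag := fun h => by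
    simpa using h
  have hsym : ∀ a b, t (a, b) ≤ t (b, a) := fun a b => by
    by_cases hab : a = b
    · rw [hab]
    · exact (min_self _).ge.trans (ultra h (mem hab) (mem hab) (mem (Ne.symm hab))
        fun r β ⟨i, g1, g2, g3⟩ => Or.inl ⟨i, g1, g2, g3.symm⟩)
  obtain ⟨H, H1, H2, H3⟩ := count (fun a b => t (a, b))
    (fun a b => le_antisymm (hsym a b) (hsym b a)) m univ (by simp [hk])
    fun a _ b _ c _ ab bc ac => ultra h (mem ab) (mem bc) (mem ac) fun r β ⟨i, g1, g2, g3⟩ => by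
      by_cases g4 : x (φ a) i = x (φ b) i
      · exact Or.inr ⟨i, g1, g2, fun g5 => g3 (g4.trans g5)⟩
      · exact Or.inl ⟨i, g1, g2, g4⟩
  have hs : s ≤ T := by simpa using h.s2
  have key : ∀ σ, ∃ q ∈ Fam s, ∀ a b, a ≠ b → H σ (t (a, b)) a < H σ (t (a, b)) b →
      (π s q).symm (φ a) < (π s q).symm (φ b) := by
    intro σ
    obtain ⟨d, d1, d2, d3, d4⟩ := hit (lam := lam) (sl := sl s) z (fun i => x (φ i)) h
      (fun e he => mem_product.2 ⟨he, mem_range.2 (by omega)⟩) (by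
        intro i i' r β hβ ⟨p, g1, g2⟩
        have g3 := V2 _ (pt (φ i) r).2 _ (pt (φ i') r).2 (β ∩ Co) (mem_filter.2
          ⟨mem_powerset.2 inter_subset_right, (card_le_card inter_subset_left).trans hβ⟩)
          ⟨p, mem_filter.2 ⟨mem_univ _, fun c hc => g1 c (mem_inter.1 hc).1⟩, g2⟩
        refine (Nat.lt_mul_div_succ G (Nat.two_pow_pos lam)).trans_le
          (Nat.mul_le_mul_left _ (g3.trans_le (card_le_card fun p hp => ?_)))
        obtain ⟨g4, g5⟩ := mem_filter.1 hp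
        exact mem_filter.2 ⟨mem_univ _,
          fun c hc => (mem_filter.1 g4).2 c (mem_inter.2 ⟨hc, c.2⟩), g5⟩)
      hL (Nat.lt_succ_self _) (M2 s) hR0 (fun c hc => (Fintype.card_fin _).trans_le (M1 hc))
      (fun c hc => (Nat.le_div_iff_mul_le (M2 _)).2 (by
        rw [← hc]
        exact (Nat.mul_le_mul_left _ (Fintype.card_fin _).ge).trans (slice (L := L) z c)))
      (fun e i => ⟨H σ e i, H1 σ e i⟩)
      fun i i' hi e he => Fin.ext ((H2 σ i (mem_univ _) i' (mem_univ _) hi).1 e he)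
    obtain ⟨q, q1, q2⟩ := Fam2 s d d1 d2 d3
    obtain ⟨q3, q4⟩ := d4 q (mem_filter.1 q2).2
    refine ⟨q, q1, fun a b ab hlt => ?_⟩
    have g1 := h.ht _ (mem ab)
    have g2 : t (a, b) < 2 ^ D := by simpa using (h.rng g1).2
    refine hπ s q _ _ _ g2 (fun e he => ?_) ?_
    · simp only [γ, q3 a b ab e he]
    · simp only [γ, dif_pos g2, q4 ⟨_, g2⟩ g1]
      exact hlt
  choose q q1 q2 using key
  rw [Shatters, show 2 ^ m = (univ : Finset (Fin m → Bool)).card by simp]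
  refine card_le_card_of_injOn (fun σ => orderOf (π s (q σ)) S) (fun σ _ => mem_image_of_mem _
    (mem_biUnion.2 ⟨s, mem_range.2 (by omega), mem_image_of_mem _ (q1 σ)⟩)) fun σ _ σ' _ g => ?_
  by_contra g1
  obtain ⟨a, -, b, -, ab, g2, g3⟩ := H3 σ σ' g1
  rw [le_antisymm (hsym a b) (hsym b a)] at g3
  exact lt_asymm (q2 σ' b a ab.symm g3) ((orderOf_eq_iff.1 g _ (S.orderEmbOfFin_mem hS a) _
    (S.orderEmbOfFin_mem hS b)).1 (q2 σ a b ab g2))

theorem not_O {m t : ℕ} (ht : t ≤ 2 ^ m) :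
    ¬ (fun n : ℕ => Real.log n) =O[atTop] fun n : ℕ => (f (m + 1) t n : ℝ) := by
  intro hO
  obtain ⟨C, hC0, hC⟩ := hO.exists_pos
  obtain ⟨N₀, hN₀⟩ := eventually_atTop.1 hC.bound
  obtain ⟨C', hC'⟩ := exists_nat_gt C
  obtain ⟨c₁, c₂, d, Q₀, h1, h2⟩ := main m C'
  set Q := Q₀ + N₀ + 2 * C' * c₁ + 1 with hQ
  obtain ⟨P, hP, hP'⟩ := h2 Q (by omega)
  have h3 : f (m + 1) t (2 ^ (Q * d)) ≤ c₁ + Q * c₂ :=
    (f_le fun S hS => ht.trans (hP' S hS)).trans hP
  have h4 := hN₀ (2 ^ (Q * d)) (le_trans (by nlinarith) Nat.lt_two_pow_self.le)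
  rw [Real.norm_of_nonneg (Real.log_natCast_nonneg _), Real.norm_of_nonneg (by positivity),
    Nat.cast_pow, Real.log_pow] at h4
  have h5 : 2 * C' * f (m + 1) t (2 ^ (Q * d)) < Q * d := by nlinarith
  have h6 : (2 : ℝ) * C' * f (m + 1) t (2 ^ (Q * d)) < (Q * d : ℕ) := by exact_mod_cast h5
  have h7 := Real.log_two_gt_d9
  have h8 : (0 : ℝ) ≤ f (m + 1) t (2 ^ (Q * d)) := by positivity
  have h9 : (0 : ℝ) ≤ (Q * d : ℕ) := by positivity
  push_cast at h4 h6 h9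
  nlinarith

theorem tau_eq {k : ℕ} (hk : 3 ≤ k) : tau k = 2 ^ (k - 1) + 1 := by
  refine le_antisymm (tau_le hk) (Nat.succ_le_of_lt (not_le.1 fun hcon => ?_))
  have hmem : tau k ∈ {t : ℕ | 1 ≤ t ∧ t ≤ k.factorial ∧
      (fun n : ℕ => Real.log n) =O[atTop] (fun n : ℕ => (f k t n : ℝ))} :=
    Nat.sInf_mem ⟨_, Nat.le_add_left _ _, two_pow_lt_factorial hk, log_isBigO hk⟩
  obtain ⟨m, rfl⟩ : ∃ m, k = m + 1 := ⟨k - 1, by omega⟩
  exact not_O hcon hmem.2.2

end Pool.Agent.P.MP_0a2852_co.Full
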