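import Mathlib

/-! The combinatorial core: zeros, nodes and first visible times. -/

namespace Pool.Agent.P.MP_0a2852_co.Full

open Finset

/-- Positive numbers below `2 ^ j` with at most `K` binary ones. -/
def W : ℕ → ℕ → Finset ℕ
  | 0, _ => ∅
  | _ + 1, 0 => ∅
  | K + 1, c + 1 => W (K + 1) c ∪ insert (2 ^ c) ((W K c).image (2 ^ c + ·))

theorem W_card (j : ℕ) : ∀ K, (W K j).card + 1 ≤ (j + 1) ^ K := by
  induction j with
  | zero => intro K; cases K <;> simp [W]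
  | succ c ih =>
    intro K
    cases K with
    | zero => simp [W]
    | succ K =>
      have h1 := ih (K + 1)
      have h2 := ih K
      have h3 : (W (K + 1) (c + 1)).card ≤ (W (K + 1) c).card + ((W K c).card + 1) := by
        rw [W]
        refine (card_union_le _ _).trans (Nat.add_le_add_left ?_ _)
        exact (card_insert_le _ _).trans (Nat.add_le_add_right card_image_le _)
      have h4 : (c + 1) ^ K ≤ (c + 1 + 1) ^ K := Nat.pow_le_pow_left (by omega) _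
      rw [pow_succ] at h1 ⊢
      nlinarith

theorem W_mono (j : ℕ) : ∀ K, W K j ⊆ W (K + 1) j := by
  induction j with
  | zero => intro K; cases K <;> simp [W]
  | succ c ih =>
    intro K
    cases K with
    | zero => simp [W]
    | succ K =>
      rw [W, W]
      exact union_subset_union (ih _) (insert_subset_insert _ (image_subset_image (ih _)))

theorem W_bound (j : ℕ) : ∀ K, ∀ e ∈ W K j, 0 < e ∧ e < 2 ^ j := by
  induction j with
  | zero => intro K; cases K <;> simp [W]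
  | succ c ih =>
    intro K e he
    cases K with
    | zero => simp [W] at he
    | succ K =>
      have := Nat.two_pow_pos c
      simp only [W, mem_union, mem_insert, mem_image] at he
      rw [pow_succ]
      rcases he with he | rfl | ⟨w, hw, rfl⟩
      · have := ih _ e he; omega
      · omega
      · have := ih _ w hw; omega

/-- The zeros that still hold unit `r` at time `e`. -/
def cut (B : Finset (ℕ × ℕ)) (r e : ℕ) : Finset (ℕ × ℕ) :=
  B.filter fun z => 2 ^ (r + 1) ∣ z.1 ∧ e ≤ z.1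

theorem mem_cut {B : Finset (ℕ × ℕ)} {r e : ℕ} {z : ℕ × ℕ} :
    z ∈ cut B r e ↔ z ∈ B ∧ 2 ^ (r + 1) ∣ z.1 ∧ e ≤ z.1 := mem_filter

/-- `e'` is `e` with its lowest binary one removed. -/
def Par (e e' : ℕ) : Prop := ∃ c, 2 ^ (c + 1) ∣ e' ∧ e = e' + 2 ^ c

theorem not_dvd_mid {τ c e : ℕ} (h : 2 ^ c ∣ τ) (h1 : τ < e) (h2 : e < τ + 2 ^ c) :
    ¬ 2 ^ c ∣ e := fun h3 => by
  have := Nat.le_of_dvd (by omega) ((Nat.dvd_sub h3 h))
  omega

variable {ι : Type}

theorem node (φ : Finset (ℕ × ℕ) → ι → Prop) (hφ : ∀ B B' v, B ⊆ B' → φ B' v → φ B v)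
    (Δ : Finset ι) (e M : ℕ) (n : ℕ) : ∀ (B : Finset (ℕ × ℕ)) (s : ℕ) (Δ' : Finset ι),
    Δ'.card ≤ n → (∀ v ∈ Δ, φ B v → v ∈ Δ') → ∃ (Bs : Finset (ℕ × ℕ)) (s' : ℕ), s ≤ s' ∧
      s' ≤ s + n * M ∧ Bs.card ≤ n ∧ (∀ z ∈ Bs, z.1 = e ∧ z.2 ≤ s') ∧
      ∀ v ∈ Δ, φ (B ∪ Bs) v → ∀ a, s' < a → a ≤ s' + M → φ (insert (e, a) (B ∪ Bs)) v := by
  classical
  induction n with
  | zero =>
    intro B s Δ' h1 h2
    refine ⟨∅, s, le_rfl, by simp, by simp, by simp, fun v hv h => ?_⟩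
    have := card_pos.2 ⟨v, h2 v hv (by simpa using h)⟩
    omega
  | succ n ih =>
    intro B s Δ' h1 h2
    by_cases h : ∀ v ∈ Δ, φ B v → ∀ a, s < a → a ≤ s + M → φ (insert (e, a) B) v
    · exact ⟨∅, s, le_rfl, by simp, by simp, by simp, by simpa using h⟩
    push Not at h
    obtain ⟨v, hv, h3, a, ha1, ha2, h4⟩ := h
    obtain ⟨Bs, s', k1, k2, k3, k4, k5⟩ := ih (insert (e, a) B) (s + M) (Δ'.erase v)
      (by rw [card_erase_of_mem (h2 v hv h3)]; omega)
      (fun u hu h5 => mem_erase.2 ⟨fun h6 => h4 (h6 ▸ h5),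
        h2 u hu (hφ _ _ _ (subset_insert _ _) h5)⟩)
    refine ⟨insert (e, a) Bs, s', by omega, by nlinarith, (card_insert_le _ _).trans (by omega),
      fun z hz => ?_, ?_⟩
    · rcases mem_insert.1 hz with rfl | hz
      · exact ⟨rfl, by omega⟩
      · exact k4 z hz
    · rw [union_insert, ← insert_union]
      exact k5

/-- A solution on the times in `(τ, τ + 2 ^ j)`. -/
structure Sol (vis : ι → ℕ → Finset (ℕ × ℕ) → Prop) (K M T j τ : ℕ) (Bx : Finset (ℕ × ℕ))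
    (Δ : Finset ι) (s₀ : ℕ) (B : Finset (ℕ × ℕ)) (N : Finset ℕ) (s : ℕ) (t : ι → ℕ) : Prop where
  s1 : s₀ ≤ s
  s2 : s ≤ s₀ + T
  cB : B.card ≤ T
  cN : N.card ≤ T
  hB : ∀ z ∈ B, z.1 ∈ N ∧ z.2 ≤ s
  hN : ∀ e ∈ N, ∃ w ∈ W K j, e = τ + w
  ht : ∀ v ∈ Δ, t v ∈ N
  see : ∀ v ∈ Δ, ∃ r, 2 ^ r ∣ t v ∧ ¬ 2 ^ (r + 1) ∣ t v ∧ vis v r (cut (Bx ∪ B) r (t v))
  blind : ∀ v ∈ Δ, ∀ e, τ < e → e < t v → ∀ r, 2 ^ r ∣ e → ¬ vis v r (cut (Bx ∪ B) r e)
  lab : ∀ e ∈ N, ∃ e', (e' ∈ N ∨ e' = τ) ∧ Par e e' ∧ ∀ v ∈ Δ, e' < t v → t v < e →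
    ∀ a, s < a → a ≤ s + M → ∃ r, 2 ^ (r + 1) ∣ e ∧ vis v r (insert (e, a) (cut (Bx ∪ B) r e))

theorem Sol.rng {vis : ι → ℕ → Finset (ℕ × ℕ) → Prop} {K M T j τ Bx Δ s₀ B N s t}
    (h : Sol vis K M T j τ Bx Δ s₀ B N s t) {e : ℕ} (he : e ∈ N) : τ < e ∧ e < τ + 2 ^ j := by
  obtain ⟨w, hw, rfl⟩ := h.hN e he
  have := W_bound _ _ w hw
  omega

theorem solve (ι : Type) (K : ℕ) : ∀ M, ∃ T, ∀ vis : ι → ℕ → Finset (ℕ × ℕ) → Prop,
    (∀ v r β β', β ⊆ β' → vis v r β' → vis v r β) → ∀ (j τ : ℕ) (Bx : Finset (ℕ × ℕ))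
    (Δ : Finset ι) (s₀ : ℕ), 2 ^ j ∣ τ → (∀ z ∈ Bx, τ + 2 ^ j ≤ z.1) → Δ.card ≤ K →
    (∀ v ∈ Δ, ∃ r < j, vis v r (cut Bx r 0)) →
    ∃ B N s t, Sol vis K M T j τ Bx Δ s₀ B N s t := by
  classical
  have triv : ∀ (vis : ι → ℕ → Finset (ℕ × ℕ) → Prop) K M T j τ Bx s₀,
      ∃ B N s t, Sol vis K M T j τ Bx ∅ s₀ B N s t := fun vis K M T j τ Bx s₀ =>
    ⟨∅, ∅, s₀, fun _ => 0, le_rfl, by simp, by simp, by simp, by simp, by simp, by simp, by simp,
      by simp, by simp⟩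
  induction K with
  | zero =>
    refine fun M => ⟨0, fun vis _ j τ Bx Δ s₀ _ _ h _ => ?_⟩
    rw [card_eq_zero.1 (Nat.le_zero.1 h)]
    exact triv ..
  | succ K ih =>
    intro M
    obtain ⟨T₁, H₁⟩ := ih M
    obtain ⟨T₂, H₂⟩ := ih ((K + 1) * (T₁ + M))
    refine ⟨T₂ + T₁ + K * (T₁ + M) + K + 1, fun vis hv j => ?_⟩
    induction j with
    | zero =>
      intro τ Bx Δ s₀ _ _ _ h
      rw [eq_empty_of_forall_notMem (s := Δ) fun v hv => by simpa using h v hv]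
      exact triv ..
    | succ c ihc =>
      intro τ Bx Δ s₀ hτ hBx hΔ hvis
      have hp := Nat.two_pow_pos c
      have hpp : 2 ^ (c + 1) = 2 ^ c + 2 ^ c := by ring
      have hτ' : 2 ^ c ∣ τ := (pow_dvd_pow 2 (by omega)).trans hτ
      let φ : Finset (ℕ × ℕ) → ι → Prop := fun B v => ∃ r < c, vis v r (cut B r 0)
      have hφ : ∀ B B' v, B ⊆ B' → φ B' v → φ B v := fun B B' v h ⟨r, h1, h2⟩ =>
        ⟨r, h1, hv _ _ _ _ (filter_subset_filter _ h) h2⟩
      by_cases hall : ∀ v ∈ Δ, φ Bx v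
      · obtain ⟨B, N, s, t, h⟩ := ihc τ Bx Δ s₀ hτ' (fun z hz => by have := hBx z hz; omega) hΔ hall
        refine ⟨B, N, s, t, { h with hN := fun e he => ?_ }⟩
        obtain ⟨w, hw, h1⟩ := h.hN e he
        exact ⟨w, by rw [W]; exact mem_union_left _ hw, h1⟩
      have hc' : (Δ.filter (φ Bx)).card ≤ K := by
        have := card_lt_card (filter_ssubset.2 (by push Not at hall; exact hall) :
          Δ.filter (φ Bx) ⊂ Δ)
        omega
      obtain ⟨B₂, N₂, s₂, t₂, h₂⟩ := H₂ vis hv c (τ + 2 ^ c) Bx (Δ.filter (φ Bx)) s₀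
        (dvd_add hτ' dvd_rfl) (fun z hz => by have := hBx z hz; omega) hc'
        (fun v h => (mem_filter.1 h).2)
      obtain ⟨Bs, s', k1, k2, k3, k4, k5⟩ := node φ hφ Δ (τ + 2 ^ c) (T₁ + M) K (Bx ∪ B₂) s₂
        (Δ.filter (φ Bx)) hc' (fun v h h' => mem_filter.2 ⟨h, hφ _ _ _ subset_union_left h'⟩)
      have r₂ : ∀ z ∈ B₂, τ + 2 ^ c < z.1 ∧ z.1 < τ + 2 ^ c + 2 ^ c := fun z hz =>
        h₂.rng (h₂.hB z hz).1
      have hpos : ∀ z ∈ Bx ∪ B₂ ∪ Bs, τ + 2 ^ c ≤ z.1 := fun z hz => by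
        rcases mem_union.1 hz with hz | hz
        · rcases mem_union.1 hz with hz | hz
          · have := hBx z hz; omega
          · exact (r₂ z hz).1.le
        · exact (k4 z hz).1.ge
      obtain ⟨B₁, N₁, s₁, t₁, h₁⟩ := H₁ vis hv c τ (Bx ∪ B₂ ∪ Bs) (Δ.filter (φ (Bx ∪ B₂ ∪ Bs))) s'
        hτ' hpos ((card_le_card fun v h => mem_filter.2 ⟨(mem_filter.1 h).1, hφ _ _ _
          (subset_union_left.trans subset_union_left) (mem_filter.1 h).2⟩).trans hc')
        (fun v h => (mem_filter.1 h).2)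
      have r₁ : ∀ z ∈ B₁, τ < z.1 ∧ z.1 < τ + 2 ^ c := fun z hz => h₁.rng (h₁.hB z hz).1
      have hU : Bx ∪ (B₂ ∪ Bs ∪ B₁) = Bx ∪ B₂ ∪ Bs ∪ B₁ := by simp only [union_assoc]
      have a1 := h₁.s1; have a2 := h₁.s2; have a3 := h₁.cB; have a4 := h₁.cN
      have b1 := h₂.s1; have b2 := h₂.s2; have b3 := h₂.cB; have b4 := h₂.cN
      -- late times only see the late zeros
      have late : ∀ r e, τ + 2 ^ c < e → cut (Bx ∪ B₂ ∪ Bs ∪ B₁) r e = cut (Bx ∪ B₂) r e := by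
        intro r e he
        ext z
        simp only [mem_cut, mem_union]
        refine ⟨fun ⟨h, h', h''⟩ => ⟨?_, h', h''⟩, fun ⟨h, h'⟩ => ⟨Or.inl (Or.inl h), h'⟩⟩
        rcases h with (h | h) | h
        · exact h
        · have := k4 z h; omega
        · have := r₁ z h; omega
      have low : ∀ v ∈ Δ, ¬ φ (Bx ∪ B₂ ∪ Bs) v → ¬ vis v c (cut Bx c 0) → v ∈ Δ.filter (φ Bx) := by
        intro v h _ h'
        obtain ⟨r, hr, h''⟩ := hvis v h
        refine mem_filter.2 ⟨h, r, lt_of_le_of_ne (by omega) ?_, h''⟩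
        rintro rfl
        exact h' h''
      let t : ι → ℕ := fun v => if φ (Bx ∪ B₂ ∪ Bs) v then t₁ v else
        if vis v c (cut Bx c 0) then τ + 2 ^ c else t₂ v
      have cases : ∀ v ∈ Δ, (v ∈ Δ.filter (φ (Bx ∪ B₂ ∪ Bs)) ∧ t v = t₁ v ∧ t v < τ + 2 ^ c) ∨
          (¬ φ (Bx ∪ B₂ ∪ Bs) v ∧ vis v c (cut Bx c 0) ∧ t v = τ + 2 ^ c) ∨
          (¬ φ (Bx ∪ B₂ ∪ Bs) v ∧ ¬ vis v c (cut Bx c 0) ∧ v ∈ Δ.filter (φ Bx) ∧ t v = t₂ v ∧
            τ + 2 ^ c < t v) := by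
        intro v h
        by_cases g1 : φ (Bx ∪ B₂ ∪ Bs) v
        · have g2 : t v = t₁ v := if_pos g1
          exact Or.inl ⟨mem_filter.2 ⟨h, g1⟩, g2,
            g2 ▸ (h₁.rng (h₁.ht v (mem_filter.2 ⟨h, g1⟩))).2⟩
        by_cases g2 : vis v c (cut Bx c 0)
        · exact Or.inr (Or.inl ⟨g1, g2, (if_neg g1).trans (if_pos g2)⟩)
        · have g3 : t v = t₂ v := (if_neg g1).trans (if_neg g2)
          exact Or.inr (Or.inr ⟨g1, g2, low v h g1 g2, g3,
            g3 ▸ (h₂.rng (h₂.ht v (low v h g1 g2))).1⟩)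
      have early : ∀ v, ¬ φ (Bx ∪ B₂ ∪ Bs) v → ∀ e, e ≤ τ + 2 ^ c → ∀ r < c,
          ¬ vis v r (cut (Bx ∪ B₂ ∪ Bs ∪ B₁) r e) := fun v g e he r hr h =>
        g ⟨r, hr, hv _ _ _ _ (fun z hz => mem_cut.2 ⟨mem_union_left _ (mem_cut.1 hz).1,
          (mem_cut.1 hz).2.1, he.trans (hpos z (mem_cut.1 hz).1)⟩) h⟩
      have small : ∀ e r, τ < e → e < τ + 2 ^ c → 2 ^ r ∣ e → r < c := fun e r g1 g2 g3 =>
        not_le.1 fun g4 => not_dvd_mid hτ' g1 g2 ((pow_dvd_pow 2 g4).trans g3)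
      refine ⟨B₂ ∪ Bs ∪ B₁, N₁ ∪ insert (τ + 2 ^ c) N₂, s₁, t, by omega, by omega, ?_, ?_, ?_, ?_,
        ?_, ?_, ?_, ?_⟩
      · have := card_union_le (B₂ ∪ Bs) B₁
        have := card_union_le B₂ Bs
        omega
      · have := card_union_le N₁ (insert (τ + 2 ^ c) N₂)
        have := card_insert_le (τ + 2 ^ c) N₂
        omega
      · intro z hz
        simp only [mem_union, mem_insert] at hz ⊢
        rcases hz with (hz | hz) | hz
        · have := h₂.hB z hz; exact ⟨Or.inr (Or.inr this.1), by omega⟩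
        · have := k4 z hz; exact ⟨Or.inr (Or.inl this.1), by omega⟩
        · have := h₁.hB z hz; exact ⟨Or.inl this.1, this.2⟩
      · intro e he
        simp only [mem_union, mem_insert, W, mem_image] at he ⊢
        rcases he with he | rfl | he
        · obtain ⟨w, hw, g⟩ := h₁.hN e he
          exact ⟨w, Or.inl (W_mono _ _ hw), g⟩
        · exact ⟨_, Or.inr (Or.inl rfl), rfl⟩
        · obtain ⟨w, hw, g⟩ := h₂.hN e he
          exact ⟨_, Or.inr (Or.inr ⟨w, hw, rfl⟩), by omega⟩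
      · intro v h
        rcases cases v h with ⟨g1, g2, -⟩ | ⟨-, -, g⟩ | ⟨-, -, g1, g2, -⟩
        · exact mem_union_left _ (g2 ▸ h₁.ht v g1)
        · exact mem_union_right _ (g ▸ mem_insert_self _ _)
        · exact mem_union_right _ (mem_insert_of_mem (g2 ▸ h₂.ht v g1))
      · intro v h
        rw [hU]
        rcases cases v h with ⟨g1, g2, -⟩ | ⟨-, g1, g⟩ | ⟨-, -, g1, g2, g3⟩
        · exact g2 ▸ h₁.see v g1
        · rw [g]
          refine ⟨c, dvd_add hτ' dvd_rfl, not_dvd_mid hτ (by omega) (by omega),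
            hv _ _ _ _ (fun z hz => ?_) g1⟩
          obtain ⟨g2, g3, -⟩ := mem_cut.1 hz
          refine mem_cut.2 ⟨?_, g3, Nat.zero_le _⟩
          simp only [mem_union] at g2
          rcases g2 with ((g2 | g2) | g2) | g2
          · exact g2
          · have := r₂ z g2; exact absurd g3 (not_dvd_mid hτ (by omega) (by omega))
          · have := k4 z g2; exact absurd g3 (not_dvd_mid hτ (by omega) (by omega))
          · have := r₁ z g2; exact absurd g3 (not_dvd_mid hτ (by omega) (by omega))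
        · obtain ⟨r, g4⟩ := h₂.see v g1
          rw [← g2, ← late r _ g3] at g4
          exact ⟨r, g4⟩
      · intro v h e e1 e2 r hr
        rw [hU]
        rcases cases v h with ⟨g1, g2, -⟩ | ⟨g1, -, g⟩ | ⟨g0, g0', g1, g2, g3⟩
        · exact h₁.blind v g1 e e1 (g2 ▸ e2) r hr
        · exact early v g1 e (by omega) r (small e r e1 (by omega) hr)
        · rcases lt_trichotomy e (τ + 2 ^ c) with g4 | rfl | g4
          · exact early v g0 e g4.le r (small e r e1 g4 hr)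
          · rcases lt_trichotomy r c with g5 | rfl | g5
            · exact early v g0 _ le_rfl r g5
            · exact fun g6 => g0' (hv _ _ _ _ (fun z hz => mem_cut.2 ⟨by
                simp [(mem_cut.1 hz).1], (mem_cut.1 hz).2.1, by
                have := hBx z (mem_cut.1 hz).1; omega⟩) g6)
            · exact absurd ((pow_dvd_pow 2 g5).trans hr) (not_dvd_mid hτ (by omega) (by omega))
          · rw [late r e g4]
            exact h₂.blind v g1 e g4 (g2 ▸ e2) r hr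
      · intro e he
        rw [hU]
        rcases mem_union.1 he with he | he
        · obtain ⟨e', g1, g2, g3⟩ := h₁.lab e he
          refine ⟨e', g1.imp_left (mem_union_left _), g2, fun v h e1 e2 => ?_⟩
          have := h₁.rng he
          rcases cases v h with ⟨g4, g5, -⟩ | ⟨-, -, g⟩ | ⟨-, -, -, -, g⟩
          · exact g3 v g4 (g5 ▸ e1) (g5 ▸ e2)
          · omega
          · omega
        rcases mem_insert.1 he with rfl | he
        · refine ⟨τ, Or.inr rfl, ⟨c, hτ, rfl⟩, fun v h e1 e2 a a5 a6 => ?_⟩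
          rcases cases v h with ⟨g4, -, -⟩ | ⟨-, -, g⟩ | ⟨-, -, -, -, g⟩
          · obtain ⟨r, hr, g5⟩ := k5 v h (mem_filter.1 g4).2 a (by omega) (by omega)
            refine ⟨r, dvd_add ((pow_dvd_pow 2 hr).trans hτ') (pow_dvd_pow 2 hr),
              hv _ _ _ _ (fun z hz => ?_) g5⟩
            rcases mem_insert.1 hz with rfl | hz
            · exact mem_cut.2 ⟨mem_insert_self _ _,
                dvd_add ((pow_dvd_pow 2 hr).trans hτ') (pow_dvd_pow 2 hr), Nat.zero_le _⟩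
            · obtain ⟨g6, g7, g8⟩ := mem_cut.1 hz
              refine mem_cut.2 ⟨mem_insert_of_mem ((mem_union.1 g6).resolve_right fun g9 => ?_),
                g7, Nat.zero_le _⟩
              have := r₁ z g9
              omega
          · omega
          · omega
        · obtain ⟨e', g1, g2, g3⟩ := h₂.lab e he
          have g6 := h₂.rng he
          have g7 : τ + 2 ^ c ≤ e' := g1.elim (fun g => (h₂.rng g).1.le) fun g => g.ge
          refine ⟨e', Or.inl (mem_union_right _ (mem_insert.2 g1.symm)), g2,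
            fun v h e1 e2 a a5 a6 => ?_⟩
          rcases cases v h with ⟨-, -, g⟩ | ⟨-, -, g⟩ | ⟨-, -, g4, g5, -⟩
          · omega
          · omega
          · obtain ⟨r, g8⟩ := g3 v g4 (g5 ▸ e1) (g5 ▸ e2) a (by omega) (by nlinarith)
            rw [← late r e g6.1] at g8
            exact ⟨r, g8⟩

end Pool.Agent.P.MP_0a2852_co.Full
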