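import Mathlib

namespace Pool.Agent.P.MP_0a2852_co.Full

open Finset

theorem half {N b u : ℕ} (hN : 0 < N) (hb : b ≤ N) (h : N ≤ u * b) (y : ℕ) :
    2 ^ y * (N - b) ^ (u * y) ≤ N ^ (u * y) := by
  obtain ⟨c, rfl⟩ := Nat.exists_eq_add_of_le' hb
  have key : ∀ v : ℕ, c ^ v * (c + b + v * b) ≤ (c + b) ^ (v + 1) := by
    intro v
    induction v with
    | zero => simp
    | succ v ih =>
      have h1 : c * (c + b + (v + 1) * b) ≤ (c + b + v * b) * (c + b) := by
        nlinarith [Nat.zero_le (v * b * b), Nat.zero_le (b * b)]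
      calc c ^ (v + 1) * (c + b + (v + 1) * b) = c ^ v * (c * (c + b + (v + 1) * b)) := by ring
        _ ≤ c ^ v * ((c + b + v * b) * (c + b)) := Nat.mul_le_mul_left _ h1
        _ = c ^ v * (c + b + v * b) * (c + b) := by ring
        _ ≤ (c + b) ^ (v + 1) * (c + b) := Nat.mul_le_mul_right _ ih
        _ = (c + b) ^ (v + 1 + 1) := by ring
  have h2 : 2 * c ^ u ≤ (c + b) ^ u := by
    refine Nat.le_of_mul_le_mul_right ?_ hN
    calc 2 * c ^ u * (c + b) = c ^ u * (c + b + (c + b)) := by ring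
      _ ≤ c ^ u * (c + b + u * b) := Nat.mul_le_mul_left _ (by omega)
      _ ≤ (c + b) ^ (u + 1) := key u
      _ = (c + b) ^ u * (c + b) := by ring
  rw [Nat.add_sub_cancel, pow_mul, pow_mul, ← mul_pow]
  exact Nat.pow_le_pow_left h2 y

theorem cover {Ω δ : Type} [Fintype Ω] [Nonempty Ω] (𝒟 : Finset δ) (E : δ → Finset Ω) (P y : ℕ)
    (h : ∀ d ∈ 𝒟, Fintype.card Ω ≤ P * (E d).card) (hy : 𝒟.card < 2 ^ y) :
    ∃ F : Finset Ω, F.card ≤ P * y ∧ ∀ d ∈ 𝒟, ∃ ω ∈ F, ω ∈ E d := by
  classical
  have hN : 0 < Fintype.card Ω := Fintype.card_pos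
  by_contra hc
  push Not at hc
  have sub : (univ : Finset (Fin (P * y) → Ω)) ⊆
      𝒟.biUnion fun d => Fintype.piFinset fun _ => (E d)ᶜ := by
    intro f _
    obtain ⟨d, hd, h1⟩ := hc (univ.image f) (card_image_le.trans (by simp))
    exact mem_biUnion.2 ⟨d, hd, Fintype.mem_piFinset.2 fun i =>
      mem_compl.2 (h1 _ (mem_image_of_mem _ (mem_univ i)))⟩
  have h1 := (card_le_card sub).trans card_biUnion_le
  have h2 : 2 ^ y * ∑ d ∈ 𝒟, (Fintype.piFinset fun _ : Fin (P * y) => (E d)ᶜ).card ≤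
      𝒟.card * Fintype.card Ω ^ (P * y) := by
    rw [mul_sum]
    refine (sum_le_card_nsmul _ _ _ fun d hd => ?_).trans (smul_eq_mul _ _).le
    rw [Fintype.card_piFinset_const, card_compl]
    exact half hN (card_le_univ _) (h d hd) y
  rw [card_univ, Fintype.card_fun, Fintype.card_fin] at h1
  have h3 := Nat.mul_lt_mul_of_lt_of_le hy (le_refl (Fintype.card Ω ^ (P * y))) (pow_pos hN _)
  have h4 := Nat.mul_le_mul_left (2 ^ y) h1
  omega

theorem reset {I : Type} [Fintype I] [DecidableEq I] {A : I → Type} [∀ i, Fintype (A i)]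
    [∀ i, DecidableEq (A i)] (J : Finset I) (g : ∀ i, A i) (Mx : ℕ)
    (hM : ∀ i ∈ J, Fintype.card (A i) ≤ Mx) (S : (∀ i, A i) → Prop) [DecidablePred S] :
    (univ.filter fun ω : ∀ i, A i => S (J.piecewise g ω)).card ≤
      Mx ^ J.card * (univ.filter fun ω : ∀ i, A i => S ω ∧ ∀ i ∈ J, ω i = g i).card := by
  refine card_le_mul_card_image_of_maps_to (f := fun ω => J.piecewise g ω) (fun ω hω => ?_) _
    fun z _ => ?_
  · exact mem_filter.2 ⟨mem_univ _, (mem_filter.1 hω).2, fun i hi => J.piecewise_eq_of_mem _ _ hi⟩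
  · have sub : ((univ.filter fun ω : ∀ i, A i => S (J.piecewise g ω)).filter
        fun ω => J.piecewise g ω = z) ⊆
        Fintype.piFinset fun i => if i ∈ J then univ else {z i} := by
      intro ω hω
      refine Fintype.mem_piFinset.2 fun i => ?_
      split_ifs with hi
      · exact mem_univ _
      · rw [mem_singleton, ← (mem_filter.1 hω).2, J.piecewise_eq_of_notMem _ _ hi]
    refine (card_le_card sub).trans ?_
    rw [Fintype.card_piFinset]
    calc ∏ i, (if i ∈ J then (univ : Finset (A i)) else {z i}).card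
        ≤ ∏ i, if i ∈ J then Mx else 1 := by
          refine prod_le_prod' fun i _ => ?_
          split_ifs with hi
          · exact hM i hi
          · simp
      _ = Mx ^ J.card := by rw [prod_ite_mem, univ_inter, prod_const]

theorem prescribe {I α : Type} [Fintype I] [DecidableEq I] {R : ℕ} (hR : 0 < R) (s : Finset α)
    (ψ : α → I) (v : α → Fin R) (hc : ∀ a ∈ s, ∀ b ∈ s, ψ a = ψ b → v a = v b) (n : ℕ)
    (hn : s.card ≤ n) : Fintype.card (I → Fin R) ≤
      R ^ n * (univ.filter fun ξ : I → Fin R => ∀ a ∈ s, ξ (ψ a) = v a).card := by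
  classical
  let g : I → Fin R := fun i => if h : ∃ a ∈ s, ψ a = i then v h.choose else ⟨0, hR⟩
  have hg : ∀ a ∈ s, g (ψ a) = v a := fun a ha => by
    have h : ∃ b ∈ s, ψ b = ψ a := ⟨a, ha, rfl⟩
    simp only [g, dif_pos h]
    exact hc _ h.choose_spec.1 _ ha h.choose_spec.2
  have h1 := reset (A := fun _ : I => Fin R) (s.image ψ) g R (fun _ _ => (Fintype.card_fin R).le)
    fun _ => True
  rw [filter_true, card_univ] at h1
  refine h1.trans (Nat.mul_le_mul (Nat.pow_le_pow_right hR (card_image_le.trans hn))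
    (card_le_card fun ξ hξ => mem_filter.2 ⟨mem_univ _, fun a ha => ?_⟩))
  rw [(mem_filter.1 hξ).2.2 _ (mem_image_of_mem _ ha), hg a ha]

theorem code {G K δ : Type} [Fintype G] [DecidableEq G] [Field K] [Fintype K] [DecidableEq K]
    (hK : Fintype.card G ≤ Fintype.card K) (Γ : Finset δ) (F : δ → Finset G) (w : ℕ) :
    ∃ V : Finset (G → K), Fintype.card K ^ Fintype.card G ≤
        V.card * Fintype.card K ^ (w * Γ.card) ∧
      ∀ x ∈ V, ∀ y ∈ V, ∀ β ∈ Γ, (∃ p ∈ F β, x p ≠ y p) →
        w < ((F β).filter fun p => x p ≠ y p).card := by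
  classical
  obtain ⟨α⟩ := Function.Embedding.nonempty_of_card_le hK
  let syn : (G → K) → Γ × Fin w → K := fun x j => ∑ p ∈ F j.1, x p * α p ^ (j.2 : ℕ)
  obtain ⟨z, -, hz⟩ := exists_max_image (univ : Finset (Γ × Fin w → K))
    (fun z => (univ.filter fun x => syn x = z).card) univ_nonempty
  refine ⟨univ.filter fun x => syn x = z, ?_, ?_⟩
  · have := card_le_mul_card_image_of_maps_to (s := univ) (t := univ) (f := syn)
      (fun _ _ => mem_univ _) _ hz
    rwa [card_univ, card_univ, Fintype.card_fun, Fintype.card_fun, Fintype.card_prod,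
      Fintype.card_fin, Fintype.card_coe, mul_comm Γ.card] at this
  · rintro x hx y hy β hβ ⟨p, hp, hne⟩
    by_contra hw
    push Not at hw
    set T := (F β).filter fun p => x p ≠ y p with hT
    have hpT : p ∈ T := mem_filter.2 ⟨hp, hne⟩
    have e : syn x = syn y := (mem_filter.1 hx).2.trans (mem_filter.1 hy).2.symm
    have hs : ∀ i < w, ∑ q ∈ T, (x q - y q) * α q ^ i = 0 := fun i hi => by
      have h1 : ∑ q ∈ F β, x q * α q ^ i = ∑ q ∈ F β, y q * α q ^ i :=
        congrFun e (⟨β, hβ⟩, ⟨i, hi⟩)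
      rw [hT, sum_filter_of_ne (p := fun q => x q ≠ y q)
        fun q _ h2 h3 => h2 (by rw [h3, sub_self, zero_mul])]
      simp only [sub_mul, sum_sub_distrib, h1, sub_self]
    let Q : Polynomial K := ∏ q ∈ T.erase p, (Polynomial.X - Polynomial.C (α q))
    have hd : Q.natDegree < w := by
      rw [Polynomial.natDegree_finsetProd_X_sub_C_eq_card, card_erase_of_mem hpT]
      have := card_pos.2 ⟨p, hpT⟩
      omega
    have h0 : ∑ q ∈ T, (x q - y q) * Q.eval (α q) = 0 := by
      simp only [Polynomial.eval_eq_sum_range' hd, mul_sum]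
      rw [sum_comm]
      refine sum_eq_zero fun i hi => ?_
      simp only [mul_left_comm _ (Q.coeff i)]
      rw [← mul_sum, hs i (mem_range.1 hi), mul_zero]
    rw [sum_eq_single_of_mem p hpT fun q hq hn => ?_] at h0
    · refine mul_ne_zero (sub_ne_zero.2 hne) ?_ h0
      rw [Polynomial.eval_prod]
      refine prod_ne_zero_iff.2 fun q hq => ?_
      rw [Polynomial.eval_sub, Polynomial.eval_X, Polynomial.eval_C]
      exact sub_ne_zero.2 fun h => (mem_erase.1 hq).1 (α.injective h).symm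
    · rw [Polynomial.eval_prod, prod_eq_zero (mem_erase.2 ⟨hn, hq⟩) (by simp), mul_zero]

theorem small_sets {α : Type} [DecidableEq α] (s : Finset α) (t : ℕ) :
    (s.powerset.filter fun β => β.card ≤ t).card ≤ (t + 1) * (s.card + 1) ^ t := by
  have sub : (s.powerset.filter fun β => β.card ≤ t) ⊆
      (range (t + 1)).biUnion fun i => powersetCard i s := by
    intro β hβ
    obtain ⟨h1, h2⟩ := mem_filter.1 hβ
    exact mem_biUnion.2 ⟨β.card, mem_range.2 (by omega),
      mem_powersetCard.2 ⟨mem_powerset.1 h1, rfl⟩⟩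
  refine (card_le_card sub).trans (card_biUnion_le.trans ?_)
  refine (sum_le_card_nsmul _ _ ((s.card + 1) ^ t) fun i hi => ?_).trans (by simp)
  rw [card_powersetCard]
  exact (Nat.choose_le_pow _ _).trans ((Nat.pow_le_pow_left (Nat.le_succ _) _).trans
    (Nat.pow_le_pow_right (Nat.succ_pos _) (by have := mem_range.1 hi; omega)))

theorem poly_exp (A N : ℕ) : ∃ b, A * (b + 1) ^ N ≤ 2 ^ b := by
  have h := tendsto_pow_const_div_const_pow_of_one_lt N (r := 2) one_lt_two
  have h1 := h.eventually (gt_mem_nhds (show (0 : ℝ) < 1 / (2 * A + 1) by positivity))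
  obtain ⟨n, h2, h3⟩ := (h1.and (Filter.eventually_ge_atTop 1)).exists
  obtain ⟨b, rfl⟩ := Nat.exists_eq_add_of_le' h3
  refine ⟨b, ?_⟩
  rw [div_lt_div_iff₀ (by positivity) (by positivity), pow_succ] at h2
  have h4 : (0 : ℝ) ≤ ((b + 1 : ℕ) : ℝ) ^ N := by positivity
  have h5 : (A : ℝ) * ((b + 1 : ℕ) : ℝ) ^ N ≤ 2 ^ b := by nlinarith
  exact_mod_cast h5

theorem supp_card {I K : Type} [Fintype I] [DecidableEq I] [Fintype K] [DecidableEq K] [Zero K]
    (U : Finset I) : (univ.filter fun Y : I → K => ∀ i, i ∉ U → Y i = 0).card ≤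
      Fintype.card K ^ U.card := by
  have sub : (univ.filter fun Y : I → K => ∀ i, i ∉ U → Y i = 0) ⊆
      Fintype.piFinset fun i => if i ∈ U then univ else {0} := by
    intro Y hY
    refine Fintype.mem_piFinset.2 fun i => ?_
    split_ifs with hi
    · exact mem_univ _
    · exact mem_singleton.2 ((mem_filter.1 hY).2 i hi)
  refine (card_le_card sub).trans ?_
  rw [Fintype.card_piFinset]
  refine le_of_eq ?_
  calc ∏ i, (if i ∈ U then (univ : Finset K) else {0}).card
      = ∏ i, if i ∈ U then Fintype.card K else 1 := by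
        refine prod_congr rfl fun i _ => ?_
        split_ifs <;> simp
    _ = Fintype.card K ^ U.card := by rw [prod_ite_mem, univ_inter, prod_const]

end Pool.Agent.P.MP_0a2852_co.Full
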